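import Pool.Agent.Lib.MP_1a91b9_nuT.BaseK

/-!
# BSD for `y² + ω y = x³ + (1 + 2ω) x² - x` over 3-extensions of `ℚ(√-3)`: common definitions
-/

set_option autoImplicit false

namespace Pool.Agent.Lib.MP_1a91b9_nuT3

variable [Pool.Agent.Lib.MP_1a91b9_nuT.CD]

open NumberField IsDedekindDomain Pool.Agent.Lib.MP_1a91b9_nuT

noncomputable section


/-- The prime `v` of `F` ramifies in `F'`. -/
def Ram {F : Type*} [Field F] (F' : Type*) [Field F'] [Algebra F F']
    (v : HeightOneSpectrum (𝓞 F)) : Prop :=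
  ∃ w : HeightOneSpectrum (𝓞 F'), v.asIdeal.map (algebraMap (𝓞 F) (𝓞 F')) ≤ w.asIdeal ^ 2

universe u


end

end Pool.Agent.Lib.MP_1a91b9_nuT3
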